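import Pool.Agent.H590.PL.Stm

set_option autoImplicit false

open MeasureTheory Filter Topology Set
open scoped BigOperators ENNReal
open H590PL

namespace Pool.Agent.H763.PL

theorem nrm_ee : Nrm ee := by
  unfold Nrm ee
  simp [Fin.sum_univ_two]

/-- the analytic inequality -/
theorem CORE (h1 : S_MI) (h2 : S_DINI) (h3 : S_CF) (h4 : S_CA) (h5 : S_DPF) (h6 : S_DPA)
    (h7 : S_P2V) (_h8 : S_OR) (h9 : S_NO) (h10 : S_GL) (h11 : S_IF) (h12 : S_IA) : S_CORE := by
  intro κ _ p hp hp2 v hv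
  obtain ⟨n1, n2, n3, -⟩ := h9 κ
  obtain ⟨-, -, m3, -⟩ := h9 (Fin 2)
  obtain ⟨a₁, a₂, a₃, a₄, hdet, hnrm⟩ := n1 v hv
  obtain ⟨w₀, hw₀⟩ : ∃ w₀ : κ → P2, w₀ = fun k => (a₁ * (v k).1 + a₂ * (v k).2,
    a₃ * (v k).1 + a₄ * (v k).2) := ⟨_, rfl⟩
  rw [← hw₀] at hnrm
  have hprod : FF p w₀ one * AA p w₀ one = FF p v one * AA p v one := by
    obtain ⟨g1, g2⟩ := h10 κ p hp hp2.le v one a₁ a₂ a₃ a₄ hdet
    rw [← hw₀] at g1 g2
    rw [g1, g2]
    have : |a₁ * a₄ - a₂ * a₃| ≠ 0 := abs_ne_zero.2 hdet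
    field_simp
  rw [← hprod]
  have see : Spans ee := m3 ee nrm_ee
  have posF : ∀ q, 1 < q → q ≤ 2 → ∀ w : κ → P2, Nrm w → 0 < FF q w one :=
    fun q hq hq2 w hw => (h11 κ q hq hq2 w (n3 w hw)).2.1
  have posA : ∀ q, 1 < q → q ≤ 2 → ∀ w : κ → P2, Nrm w → 0 < AA q w one :=
    fun q hq hq2 w hw => (h12 κ q hq hq2 w (n3 w hw)).2.1
  have posFe : ∀ q, 1 < q → q ≤ 2 → 0 < FF q ee one :=
    fun q hq hq2 => (h11 (Fin 2) q hq hq2 ee see).2.1
  have posAe : ∀ q, 1 < q → q ≤ 2 → 0 < AA q ee one :=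
    fun q hq hq2 => (h12 (Fin 2) q hq hq2 ee see).2.1
  have key := h2 (κ → P2) {w | Nrm w} p 2
    (fun q w => Real.log (FF q w one) + Real.log (AA q w one) - Real.log (FF q ee one) -
      Real.log (AA q ee one)) n2 hp2 ?_ ?_ 0 ?_ w₀ hnrm
  · have e1 : 0 ≤ Real.log (FF p w₀ one) + Real.log (AA p w₀ one) - Real.log (FF p ee one) -
      Real.log (AA p ee one) := key
    have f1 := posF p hp hp2.le w₀ hnrm
    have f2 := posA p hp hp2.le w₀ hnrm
    have f3 := posFe p hp hp2.le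
    have f4 := posAe p hp hp2.le
    have e2 : Real.log (FF p ee one * AA p ee one) ≤ Real.log (FF p w₀ one * AA p w₀ one) := by
      rw [Real.log_mul f3.ne' f4.ne', Real.log_mul f1.ne' f2.ne']
      linarith
    exact (Real.log_le_log_iff (mul_pos f3 f4) (mul_pos f1 f2)).1 e2
  · -- continuity
    have hm : MapsTo (fun q : ℝ × (κ → P2) => ((q.1, ee) : ℝ × (Fin 2 → P2)))
        (Icc p 2 ×ˢ {w : κ → P2 | Nrm w}) (Icc p 2 ×ˢ {w : Fin 2 → P2 | Nrm w}) :=
      fun q hq => ⟨hq.1, nrm_ee⟩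
    have hc : ContinuousOn (fun q : ℝ × (κ → P2) => ((q.1, ee) : ℝ × (Fin 2 → P2)))
        (Icc p 2 ×ˢ {w : κ → P2 | Nrm w}) :=
      (continuous_fst.prodMk continuous_const).continuousOn
    have c1 := (h3 κ p hp hp2).log fun q hq =>
      (posF q.1 (hp.trans_le hq.1.1) hq.1.2 q.2 hq.2).ne'
    have c2 := (h4 κ p hp hp2).log fun q hq =>
      (posA q.1 (hp.trans_le hq.1.1) hq.1.2 q.2 hq.2).ne'
    have c3 := (((h3 (Fin 2) p hp hp2).comp hc hm).log fun q hq =>
      (posFe q.1 (hp.trans_le hq.1.1) hq.1.2).ne')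
    have c4 := (((h4 (Fin 2) p hp hp2).comp hc hm).log fun q hq =>
      (posAe q.1 (hp.trans_le hq.1.1) hq.1.2).ne')
    exact ((c1.add c2).sub c3).sub c4
  · -- the derivative at a minimiser
    intro q hq w hw hmin
    have hq1 : 1 < q := hp.trans_le hq.1
    have hq2 : q < 2 := hq.2
    have hw' : Nrm w := hw
    have f1 := posF q hq1 hq2.le w hw'
    have f2 := posA q hq1 hq2.le w hw'
    have f3 := posFe q hq1 hq2.le
    have f4 := posAe q hq1 hq2.le
    have d1 := (h5 κ q hq1 hq2 w (n3 w hw')).log f1.ne'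
    have d2 := (h6 κ q hq1 hq2 w (n3 w hw')).log f2.ne'
    have d3 := (h5 (Fin 2) q hq1 hq2 ee see).log f3.ne'
    have d4 := (h6 (Fin 2) q hq1 hq2 ee see).log f4.ne'
    have hmi := h1 κ q hq1 hq2 w hw' (fun w' hw'' => by
      have g1 := posF q hq1 hq2.le w' hw''
      have g2 := posA q hq1 hq2.le w' hw''
      have e1 : Real.log (FF q w one) + Real.log (AA q w one) - Real.log (FF q ee one) -
        Real.log (AA q ee one) ≤ Real.log (FF q w' one) + Real.log (AA q w' one) -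
          Real.log (FF q ee one) - Real.log (AA q ee one) := hmin w' hw''
      have e2 : Real.log (FF q w one * AA q w one) ≤ Real.log (FF q w' one * AA q w' one) := by
        rw [Real.log_mul f1.ne' f2.ne', Real.log_mul g1.ne' g2.ne']
        linarith
      exact (Real.log_le_log_iff (mul_pos f1 f2) (mul_pos g1 g2)).1 e2)
    refine ⟨_, ?_, (((d1.add d2).sub d3).sub d4).hasDerivWithinAt⟩
    have hq0 : 0 < 1 / q := by positivity
    have e : -(1 / q) * (∑ k, DFk q w k) / FF q w one + -(1 / q) * (∑ k, DAk q w k) / AA q w one -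
        -(1 / q) * (∑ k, DFk q ee k) / FF q ee one - -(1 / q) * (∑ k, DAk q ee k) / AA q ee one =
        (1 / q) * (((∑ k, DFk q ee k) / FF q ee one + (∑ k, DAk q ee k) / AA q ee one) -
          ((∑ k, DFk q w k) / FF q w one + (∑ k, DAk q w k) / AA q w one)) := by
      ring
    rw [e]
    exact mul_nonpos_of_nonneg_of_nonpos hq0.le (sub_nonpos.2 hmi)
  · intro w hw
    obtain ⟨e1, e2⟩ := h7 κ w hw
    obtain ⟨e3, e4⟩ := h7 (Fin 2) ee nrm_ee
    show 0 ≤ Real.log (FF 2 w one) + Real.log (AA 2 w one) - Real.log (FF 2 ee one) -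
      Real.log (AA 2 ee one)
    rw [e1, e2, e3, e4]
    linarith

end Pool.Agent.H763.PL
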